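import Mathlib
import Pool.Agent.H995R3.Kurepa.Def

set_option autoImplicit false

/-!
# A Kurepa family gives a regular Kurepa tree
-/

namespace Pool.Agent.R582.KA

open Cardinal Set
open Pool.Agent.H995R3.Kurepa

variable {W : Type} [LinearOrder W] {U : Type}

/-- the nodes of the tree -/
@[ext]
structure Nd (u : U → Set W) where
  al : W
  A : Set W
  F : Set W
  hA : ∃ s, A = u s ∩ Iio al
  hF : F.Finite ∧ F ⊆ Iio al

variable {u : U → Set W}

/-- the tree order -/
def Lt (x y : Nd u) : Prop := x.al < y.al ∧ y.A ∩ Iio x.al = x.A ∧ y.F ∩ Iio x.al = x.F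

theorem inter_inter {A : Set W} {a b : W} (h : a ≤ b) : A ∩ Iio b ∩ Iio a = A ∩ Iio a := by
  ext x
  constructor
  · rintro ⟨⟨h1, -⟩, h2⟩; exact ⟨h1, h2⟩
  · rintro ⟨h1, h2⟩; exact ⟨⟨h1, lt_of_lt_of_le h2 h⟩, h2⟩

theorem Lt.trans {x y z : Nd u} (h : Lt x y) (h' : Lt y z) : Lt x z := by
  refine ⟨h.1.trans h'.1, ?_, ?_⟩
  · rw [← h.2.1, ← h'.2.1, inter_inter h.1.le]
  · rw [← h.2.2, ← h'.2.2, inter_inter h.1.le]

theorem Lt.lin {x y z : Nd u} (h : Lt x z) (h' : Lt y z) : x = y ∨ Lt x y ∨ Lt y x := by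
  rcases lt_trichotomy x.al y.al with h1 | h1 | h1
  · right; left
    refine ⟨h1, ?_, ?_⟩
    · rw [← h.2.1, ← h'.2.1, inter_inter h1.le]
    · rw [← h.2.2, ← h'.2.2, inter_inter h1.le]
  · left
    refine Nd.ext h1 ?_ ?_
    · rw [← h.2.1, ← h'.2.1, h1]
    · rw [← h.2.2, ← h'.2.2, h1]
  · right; right
    refine ⟨h1, ?_, ?_⟩
    · rw [← h.2.1, ← h'.2.1, inter_inter h1.le]
    · rw [← h.2.2, ← h'.2.2, inter_inter h1.le]

/-- the restriction of a node -/
def Nd.res (x : Nd u) (a : W) (h : a ≤ x.al) : Nd u where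
  al := a
  A := x.A ∩ Iio a
  F := x.F ∩ Iio a
  hA := by
    obtain ⟨s, hs⟩ := x.hA
    exact ⟨s, by rw [hs, inter_inter h]⟩
  hF := ⟨x.hF.1.subset inter_subset_left, inter_subset_right⟩

theorem res_lt (x : Nd u) {a : W} (h : a < x.al) : Lt (x.res a h.le) x := ⟨h, rfl, rfl⟩

/-- extending a node -/
def Nd.ext' (x : Nd u) (s : U) (a : W) (G : Set W) (hG : G.Finite ∧ G ⊆ Iio a) : Nd u where
  al := a
  A := u s ∩ Iio a
  F := G
  hA := ⟨s, rfl⟩
  hF := hG

theorem level_countable (hL : Like W) (hc : ∀ j, (range fun s => u s ∩ Iio j).Countable) (α : W) :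
    {x : Nd u | x.al = α}.Countable := by
  refine Set.countable_of_injective_of_countable_image (f := fun x : Nd u => (x.A, x.F)) ?_ ?_
  · intro x hx y hy hxy
    obtain ⟨h1, h2⟩ := Prod.mk.inj hxy
    exact Nd.ext (hx.trans hy.symm) h1 h2
  · refine ((hc α).prod (Set.countable_ofPred_finite_subset (hL.cnt α))).mono ?_
    rintro _ ⟨x, rfl, rfl⟩
    obtain ⟨s, hs⟩ := x.hA
    exact ⟨⟨s, hs.symm⟩, x.hF⟩

theorem mk_Nd (hL : Like W) (hW : #W = ℵ₁) [Nonempty U]
    (hc : ∀ j, (range fun s => u s ∩ Iio j).Countable) : #(Nd u) = #W := by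
  apply le_antisymm
  · have h1 : (univ : Set (Nd u)) = ⋃ α : W, {x : Nd u | x.al = α} := by
      ext x; simp
    rw [← mk_univ, h1]
    refine (mk_iUnion_le _).trans ?_
    rw [hW]
    refine (mul_le_mul' le_rfl (ciSup_le' (a := ℵ₀) fun α => ?_)).trans ?_
    · exact Cardinal.le_aleph0_iff_set_countable.2 (level_countable hL hc α)
    · exact (mul_le_mul' le_rfl (Cardinal.aleph0_le_aleph 1)).trans
        (Cardinal.mul_eq_self (Cardinal.aleph0_le_aleph 1)).le
  · obtain ⟨s⟩ := (inferInstance : Nonempty U)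
    refine mk_le_of_injective (f := fun a : W => (⟨a, u s ∩ Iio a, ∅, ⟨s, rfl⟩,
      finite_empty, empty_subset _⟩ : Nd u)) ?_
    intro a b h
    exact congrArg Nd.al h

theorem main (hL : Like W) (hW : #W = ℵ₁) [WellFoundedLT W] (hu : Function.Injective u)
    (hU : aleph 2 ≤ #U) (hc : ∀ j, (range fun s => u s ∩ Iio j).Countable) :
    ∃ R : W → W → Prop, IsKurepa R ∧ IsRegular R := by
  classical
  have hne : Nonempty U := by
    rw [← mk_ne_zero_iff]
    exact ((aleph_pos 2).trans_le hU).ne'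
  obtain ⟨e⟩ := Cardinal.eq.1 (mk_Nd hL hW hc)
  let R : W → W → Prop := fun a b => Lt (e.symm a) (e.symm b)
  have hsuc : ∀ a : W, ∃ b, a < b ∧ ∀ c, a < c → b ≤ c := by
    intro a
    have h1 : {b : W | a < b}.Nonempty := hL.exists_gt a
    exact ⟨wellFounded_lt.min _ h1, wellFounded_lt.min_mem _ h1,
      fun c hc' => not_lt.1 fun h => wellFounded_lt.not_lt_min {b : W | a < b} (x := c) hc' h⟩
  have hTO : TO R := by
    refine ⟨fun a h => lt_irrefl _ h.1, fun a b c h h' => h.trans h', ?_, ?_⟩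
    · intro a a' b h h'
      rcases h.lin h' with h1 | h1 | h1
      · exact Or.inl (e.symm.injective h1)
      · exact Or.inr (Or.inl h1)
      · exact Or.inr (Or.inr h1)
    · exact Subrelation.wf (r := InvImage (· < ·) fun a => (e.symm a).al) (fun h => h.1)
        (InvImage.wf _ wellFounded_lt)
  have hHt : IsHt R fun b => (e.symm b).al := by
    intro b α
    constructor
    · intro h
      refine ⟨e ((e.symm b).res α h.le), ?_, ?_⟩
      · show Lt (e.symm _) _
        rw [e.symm_apply_apply]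
        exact res_lt _ h
      · show (e.symm (e ((e.symm b).res α h.le))).al = α
        rw [e.symm_apply_apply]
        rfl
    · rintro ⟨a, h1, rfl⟩
      exact h1.1
  have hH : ∀ b α, HasHeight R b α ↔ (e.symm b).al = α := fun b α => hasHeight_iff hTO hHt b α
  -- the standard nodes
  let nd : U → W → Nd u := fun s a => ⟨a, u s ∩ Iio a, ∅, ⟨s, rfl⟩, finite_empty, empty_subset _⟩
  refine ⟨R, ⟨⟨isTreeOrder_iff.2 hTO, fun b => ⟨_, (hH b _).2 rfl⟩, fun α => ⟨?_, ?_⟩⟩, ?_⟩,
    ?_, ?_, ?_⟩
  · refine ⟨e (nd hne.some α), (hH _ _).2 ?_⟩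
    rw [e.symm_apply_apply]
  · have h1 : {b | HasHeight R b α} = e '' {x : Nd u | x.al = α} := by
      ext b
      constructor
      · intro h
        exact ⟨e.symm b, (hH b α).1 h, e.apply_symm_apply b⟩
      · rintro ⟨x, hx, rfl⟩
        refine (hH _ _).2 ?_
        rw [e.symm_apply_apply]
        exact hx
    rw [h1]
    exact (level_countable hL hc α).image _
  · -- branches
    let B : U → Set W := fun s => {b | (e.symm b).A = u s ∩ Iio (e.symm b).al ∧ (e.symm b).F = ∅}
    have hBmem : ∀ s a, e (nd s a) ∈ B s := by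
      intro s a
      show (e.symm (e (nd s a))).A = u s ∩ Iio (e.symm (e (nd s a))).al ∧
        (e.symm (e (nd s a))).F = ∅
      rw [e.symm_apply_apply]
      exact ⟨rfl, rfl⟩
    have hBlt : ∀ s b b', b ∈ B s → b' ∈ B s → (e.symm b).al < (e.symm b').al → R b b' := by
      intro s b b' hb hb' h
      refine ⟨h, ?_, ?_⟩
      · rw [hb.1, hb'.1, inter_inter h.le]
      · rw [hb.2, hb'.2, empty_inter]
    have hBeq : ∀ s b b', b ∈ B s → b' ∈ B s → (e.symm b).al = (e.symm b').al → b = b' := by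
      intro s b b' hb hb' h
      refine e.symm.injective (Nd.ext h ?_ ?_)
      · rw [hb.1, hb'.1, h]
      · rw [hb.2, hb'.2]
    have hBch : ∀ s, IsChain R (B s) := by
      intro s b hb b' hb' hne'
      rcases lt_trichotomy (e.symm b).al (e.symm b').al with h | h | h
      · exact Or.inl (hBlt s b b' hb hb' h)
      · exact absurd (hBeq s b b' hb hb' h) hne'
      · exact Or.inr (hBlt s b' b hb' hb h)
    have hBmax : ∀ s, IsMaxChain R (B s) := by
      intro s
      refine ⟨hBch s, fun t ht hst => subset_antisymm hst ?_⟩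
      intro b hb
      obtain ⟨a, ha, -⟩ := hsuc (e.symm b).al
      have h1 : e (nd s a) ∈ t := hst (hBmem s a)
      have hal : (e.symm (e (nd s a))).al = a := by rw [e.symm_apply_apply]
      have h2 : b ≠ e (nd s a) := by
        intro h
        have h3 : (e.symm b).al = a := by rw [h, hal]
        exact ha.ne h3
      rcases ht hb h1 h2 with h3 | h3
      · have h4 : Lt (e.symm b) (e.symm (e (nd s a))) := h3
        rw [e.symm_apply_apply] at h4
        refine ⟨?_, ?_⟩
        · rw [← h4.2.1]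
          exact inter_inter ha.le
        · rw [← h4.2.2]
          exact empty_inter _
      · have h4 : (e.symm (e (nd s a))).al < (e.symm b).al := h3.1
        rw [hal] at h4
        exact absurd (ha.trans h4) (lt_irrefl _)
    have hBunc : ∀ s, ¬ (B s).Countable := by
      intro s h
      have h1 : (univ : Set W) = (fun b => (e.symm b).al) '' B s := by
        ext a
        refine ⟨fun _ => ⟨e (nd s a), hBmem s a, ?_⟩, fun _ => trivial⟩
        show (e.symm (e (nd s a))).al = a
        rw [e.symm_apply_apply]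
      have h2 : (univ : Set W).Countable := by
        rw [h1]
        exact h.image _
      exact hL.unc (Set.countable_univ_iff.1 h2)
    refine hU.trans (mk_le_of_injective (f := fun s => (⟨B s, hBmax s, hBunc s⟩ :
      uncBranches R)) ?_)
    intro s t hst
    have h1 : B s = B t := congrArg Subtype.val hst
    apply hu
    have h2 : ∀ a, u s ∩ Iio a = u t ∩ Iio a := by
      intro a
      have h3 := hBmem s a
      rw [h1] at h3
      have h4 := h3.1
      rw [e.symm_apply_apply] at h4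
      exact h4
    ext x
    obtain ⟨a, ha⟩ := hL.exists_gt x
    constructor
    · intro hx
      have h3 : x ∈ u s ∩ Iio a := ⟨hx, ha⟩
      rw [h2] at h3
      exact h3.1
    · intro hx
      have h3 : x ∈ u t ∩ Iio a := ⟨hx, ha⟩
      rw [← h2] at h3
      exact h3.1
  · -- the root
    obtain ⟨m, hm⟩ : ∃ m : W, ∀ a, m ≤ a := by
      haveI := hL.nonempty
      have h1 : (univ : Set W).Nonempty := univ_nonempty
      exact ⟨wellFounded_lt.min _ h1, fun a => not_lt.1 fun h =>
        wellFounded_lt.not_lt_min (univ : Set W) (x := a) trivial h⟩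
    have hemp : Iio m = ∅ := by
      ext x
      simp only [mem_Iio, mem_empty_iff_false, iff_false, not_lt]
      exact hm x
    refine ⟨e (nd hne.some m), fun a ha => ?_⟩
    show Lt (e.symm _) (e.symm a)
    rw [e.symm_apply_apply]
    have h1 : m ≠ (e.symm a).al := by
      intro h
      apply ha
      apply e.symm.injective
      rw [e.symm_apply_apply]
      refine Nd.ext h.symm ?_ ?_
      · obtain ⟨s, hs⟩ := (e.symm a).hA
        show (e.symm a).A = u hne.some ∩ Iio m
        rw [hs, ← h, hemp, inter_empty, inter_empty]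
      · have h2 := (e.symm a).hF.2
        rw [← h, hemp] at h2
        exact subset_empty_iff.1 h2
    refine ⟨lt_of_le_of_ne (hm _) h1, ?_, ?_⟩
    · show (e.symm a).A ∩ Iio m = u hne.some ∩ Iio m
      rw [hemp, inter_empty, inter_empty]
    · show (e.symm a).F ∩ Iio m = ∅
      rw [hemp, inter_empty]
  · -- immediate successors
    intro a
    obtain ⟨s, hs⟩ := (e.symm a).hA
    obtain ⟨b, hb, hb'⟩ := hsuc (e.symm a).al
    have hF1 := (e.symm a).hF
    let x1 : Nd u := ⟨b, u s ∩ Iio b, (e.symm a).F, ⟨s, rfl⟩, hF1.1,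
      hF1.2.trans fun y hy => lt_trans (mem_Iio.1 hy) hb⟩
    let x2 : Nd u := ⟨b, u s ∩ Iio b, insert (e.symm a).al (e.symm a).F, ⟨s, rfl⟩,
      hF1.1.insert _, insert_subset hb (hF1.2.trans fun y hy => lt_trans (mem_Iio.1 hy) hb)⟩
    have himm : ∀ x : Nd u, x.al = b → x.A = u s ∩ Iio b → x.F ∩ Iio (e.symm a).al = (e.symm a).F →
        ImmSucc R a (e x) := by
      intro x h1 h2 h3
      refine ⟨?_, ?_⟩
      · show Lt (e.symm a) (e.symm (e x))
        rw [e.symm_apply_apply]
        refine ⟨by rw [h1]; exact hb, ?_, h3⟩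
        rw [h2, hs]
        exact inter_inter hb.le
      · rintro ⟨c, h4, h5⟩
        have h6 : (e.symm c).al < (e.symm (e x)).al := h5.1
        rw [e.symm_apply_apply, h1] at h6
        exact absurd (hb' _ h4.1) (not_le.2 h6)
    refine ⟨e x1, e x2, ?_, himm x1 rfl rfl ?_, himm x2 rfl rfl ?_⟩
    · intro h
      have h1 : x1.F = x2.F := congrArg Nd.F (e.injective h)
      have h2 : (e.symm a).al ∈ x2.F := mem_insert _ _
      rw [← h1] at h2
      exact lt_irrefl _ (mem_Iio.1 (hF1.2 h2))
    · exact inter_eq_left.2 hF1.2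
    · show insert (e.symm a).al (e.symm a).F ∩ Iio (e.symm a).al = (e.symm a).F
      rw [insert_inter_of_notMem (by simp)]
      exact inter_eq_left.2 hF1.2
  · -- pruned
    intro a α β ha hαβ
    rw [hH] at ha
    subst ha
    obtain ⟨s, hs⟩ := (e.symm a).hA
    have hF1 := (e.symm a).hF
    refine ⟨e ⟨β, u s ∩ Iio β, (e.symm a).F, ⟨s, rfl⟩, hF1.1,
      hF1.2.trans fun y hy => lt_trans (mem_Iio.1 hy) hαβ⟩, ?_, ?_⟩
    · show Lt (e.symm a) (e.symm (e _))
      rw [e.symm_apply_apply]
      refine ⟨hαβ, ?_, inter_eq_left.2 hF1.2⟩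
      show u s ∩ Iio β ∩ Iio (e.symm a).al = (e.symm a).A
      rw [hs]
      exact inter_inter hαβ.le
    · rw [hH, e.symm_apply_apply]

end Pool.Agent.R582.KA
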