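import Mathlib
import Pool.Agent.W684.FM.Ambient
import Pool.Agent.R590.KuForce
import Pool.Agent.R582.KA.Tree

set_option autoImplicit false

/-!
# Martin's axiom together with a Kurepa family
-/

namespace Pool.Agent.R582.KA

open Cardinal Set
open Pool.Agent.Helper669.Forcing Pool.Agent.W684.FM

/-- There is a family of pairwise different subsets `A i` (`i` in `U`) of `ω₁` such that for every
`j < ω₁` there is a sequence of subsets of `ω₁` such that every `A i` agrees below `j` with a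
member of the sequence, and there is no injective function from `U` to `ω₁`. -/
def Kur : Prop :=
  ∃ (U : Type) (A : U → Om1 → Prop),
    (∀ i i', i ≠ i' → ¬ ∀ β, A i β ↔ A i' β) ∧
    (∀ j : Om1, ∃ e : ℕ → Om1 → Prop, ∀ i, ∃ n, ∀ β, β < j → (A i β ↔ e n β)) ∧
    ¬ ∃ f : U → Om1, f.Injective

/-- The translation of `Kur` into the forcing language. -/
def KurN (P : Type) [Preorder P] : Set P :=
  fex fun U : Type => fex fun A : U → Om1 → Set P =>
    fand (fall fun i : U => fall fun i' : U => fimp (fground (i ≠ i'))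
        (fnot (fall fun β => fand (fimp (meets (A i β)) (meets (A i' β)))
          (fimp (meets (A i' β)) (meets (A i β))))))
      (fand (fall fun j : Om1 => fex fun e : ℕ → Om1 → Set P => fall fun i : U => fex fun n =>
          fall fun β => fimp (fground (β < j)) (fand (fimp (meets (A i β)) (meets (e n β)))
            (fimp (meets (e n β)) (meets (A i β)))))
        (fnot (fex fun R : U → Om1 → Set P => fand (IsFun R) (IsInj R))))

/-- The meaning of `Kur`. -/
theorem kur_iff : Kur ↔ ∃ (U : Type) (u : U → Set Om1), Function.Injective u ∧ ℵ₁ < #U ∧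
    ∀ j, (range fun s => u s ∩ Iio j).Countable := by
  constructor
  · rintro ⟨U, A, h1, h2, h3⟩
    refine ⟨U, fun i => {β | A i β}, ?_, ?_, ?_⟩
    · intro i j hij
      by_contra hne
      refine h1 i j hne fun β => ?_
      have h5 : {β | A i β} = {β | A j β} := hij
      have : β ∈ {β | A i β} ↔ β ∈ {β | A j β} := by rw [h5]
      exact this
    · by_contra hcon
      apply h3
      have h4 : #U ≤ #Om1 := by
        rw [mk_ord_toType]
        exact not_lt.1 hcon
      obtain ⟨g⟩ := h4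
      exact ⟨g, g.injective⟩
    · intro j
      obtain ⟨e, he⟩ := h2 j
      refine (countable_range fun n => {β | e n β ∧ β < j}).mono ?_
      rintro _ ⟨i, rfl⟩
      obtain ⟨n, hn⟩ := he i
      refine ⟨n, ?_⟩
      ext β
      constructor
      · rintro ⟨h5, h6⟩
        exact ⟨(hn β h6).2 h5, h6⟩
      · rintro ⟨h5, h6⟩
        exact ⟨(hn β h6).1 h5, h6⟩
  · rintro ⟨U, u, h1, h2, h3⟩
    refine ⟨U, fun i β => β ∈ u i, ?_, ?_, ?_⟩
    · intro i j hij h
      exact hij (h1 (Set.ext h))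
    · intro j
      have hne : Nonempty U := by
        rw [← mk_ne_zero_iff]
        intro h0
        rw [h0] at h2
        exact absurd h2 not_lt_zero
      obtain ⟨e, he⟩ := (h3 j).exists_eq_range (range_nonempty _)
      refine ⟨fun n β => β ∈ e n, fun i => ?_⟩
      have h5 : u i ∩ Iio j ∈ range e := by
        rw [← he]
        exact ⟨i, rfl⟩
      obtain ⟨n, hn⟩ := h5
      refine ⟨n, fun β hβ => ?_⟩
      show β ∈ u i ↔ β ∈ e n
      rw [hn]
      exact ⟨fun h => ⟨h, hβ⟩, fun h => h.1⟩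
    · rintro ⟨f, hf⟩
      have h4 := mk_le_of_injective hf
      rw [mk_ord_toType] at h4
      exact absurd h2 (not_lt.2 h4)

section

variable {P : Type} [Preorder P]

theorem chk_iff {h : Prop} {p : P} : p ∈ meets {_p : P | h} ↔ h :=
  ⟨fun h1 => by
    obtain ⟨_, _, _, h2, _⟩ := h1 p le_rfl
    exact h2, fun h1 => meets_of_mem h1⟩

/-- A Kurepa family stays one in every extension by a ccc forcing. -/
theorem kurN (hP : PCCC P) (h : Kur) (p : P) : p ∈ KurN P := by
  have hK := h
  obtain ⟨U, A, h1, h2, h3⟩ := h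
  have hU : ℵ₁ < #U := by
    by_contra hcon
    apply h3
    have h4 : #U ≤ #Om1 := by
      rw [mk_ord_toType]
      exact not_lt.1 hcon
    obtain ⟨g⟩ := h4
    exact ⟨g, g.injective⟩
  refine mem_fex.2 fun q _ => ⟨q, le_rfl, U, mem_fex.2 fun q1 _ => ⟨q1, le_rfl,
    fun i β => {_p : P | A i β}, fun i i' => ?_, fun j => ?_, ?_⟩⟩
  · refine mem_fimp.2 fun q2 _ hne => ⟨q2, le_rfl, ?_⟩
    intro q3 _ hq3
    refine h1 i i' hne fun β => ?_
    obtain ⟨h4, h5⟩ := hq3 β
    constructor
    · intro h6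
      obtain ⟨r, hr, hr'⟩ := mem_fimp.1 h4 q3 le_rfl (chk_iff.2 h6)
      exact chk_iff.1 hr'
    · intro h6
      obtain ⟨r, hr, hr'⟩ := mem_fimp.1 h5 q3 le_rfl (chk_iff.2 h6)
      exact chk_iff.1 hr'
  · obtain ⟨e, he⟩ := h2 j
    refine mem_fex.2 fun q2 _ => ⟨q2, le_rfl, fun n β => {_p : P | e n β}, fun i => ?_⟩
    obtain ⟨n, hn⟩ := he i
    refine mem_fex.2 fun q3 _ => ⟨q3, le_rfl, n, fun β => mem_fimp.2 fun q4 _ hβ =>
      ⟨q4, le_rfl, ?_, ?_⟩⟩
    · exact mem_fimp.2 fun q5 _ h4 => ⟨q5, le_rfl, chk_iff.2 ((hn β hβ).1 (chk_iff.1 h4))⟩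
    · exact mem_fimp.2 fun q5 _ h4 => ⟨q5, le_rfl, chk_iff.2 ((hn β hβ).2 (chk_iff.1 h4))⟩
  · intro q2 _ hq2
    obtain ⟨q3, _, R, hF, hI⟩ := mem_fex.1 hq2 q2 le_rfl
    have h4 : ∀ y : U, ∃ s ≤ q3, ∃ x : Om1, s ∈ meets (R y x) := fun y => IsFun.total hF y
    choose f hf x hx using h4
    obtain ⟨y, y', hne, hz, s, hs1, hs2⟩ := hP.exists_compat_same (X := U) (Z := Om1) (by
      rw [mk_ord_toType, Cardinal.mul_eq_left (aleph0_le_aleph 1) (aleph0_le_aleph 1)
        Cardinal.aleph0_ne_zero]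
      exact hU) f x
    refine hne (IsInj.eq (down_IsInj R q3 hI s (hs1.trans (hf y)))
      (down_meets _ _ (hx y) s hs1) ?_)
    rw [hz]
    exact down_meets _ _ (hx y') s hs2

end

/-- If there is a Kurepa family, then there is a notion of forcing which forces that `ω₁` is
preserved, that Martin's axiom for `ℵ₁` dense sets holds and that there is a Kurepa family. -/
theorem exists_forcing (h : Kur) : ∃ (P : Type) (_ : Preorder P), Nonempty P ∧ ∀ p : P,
    p ∈ OmegaOnePreserved P ∧ p ∈ MartinHolds P Om1 ∧ p ∈ KurN P := by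
  refine ⟨PP Om1 (Order.succ #Om1).ord.ToType, inferInstance, ⟨⟨∅, valid_empty _⟩⟩, fun p => ?_⟩
  exact ⟨pccc.omegaOnePreserved p, martinHolds (bdd_succ Om1) p, kurN pccc h p⟩

/-- The hypothesis forced in `Pool.Agent.R590.KuForce` gives a Kurepa family. -/
theorem kur_of_hypothesis (h : Pool.Agent.R590.Kur.Hypothesis) : Kur := by
  obtain ⟨U, u, h1, h2, h3⟩ := Pool.Agent.R590.Kur.hypothesis_iff.1 h
  refine kur_iff.2 ⟨U, u, h1, lt_of_le_of_lt ?_ h2, h3⟩
  exact Cardinal.aleph_one_le_continuum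

end Pool.Agent.R582.KA
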